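import Pool.Agent.H33.WPG1

set_option autoImplicit false

open Pool.Agent.H33.WPG1

namespace Pool.Agent.Results.MP_bb2768_gt.NotPrecompact

theorem result : ∃ (G : Type) (_ : AddCommGroup G) (_ : TopologicalSpace G),
    IsTopologicalAddGroup G ∧ T2Space G ∧ WeaklyPseudocompact G ∧ RFactorizable G ∧
      ¬ Precompact G :=
  ⟨G, inferInstance, inferInstance, inferInstance, inferInstance, wpc, rfact, not_precompact⟩

end Pool.Agent.Results.MP_bb2768_gt.NotPrecompact
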